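import Pool.Agent.Helper97.CG.Skw

/-!
# CG, row CC: the chart for the trivial group, equivariant for the centre
-/

namespace Pool.Agent.Helper79.CG

open MvPolynomial Matrix Pool.Agent.Helper14.RG Pool.Agent.Helper97.CG

universe u

section Transport

variable {k : Type*} [Field k]

/-- transport of a chart by an isomorphism -/
def transportChart {G G' : Type*} [Group G] [Group G'] {A : Subalgebra k (G → k)}
    {A' : Subalgebra k (G' → k)} {H H1 : Subgroup G} {H' H1' : Subgroup G'} {N : Type*}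
    [Fintype N] (ch : LChart A' H' H1' N) (Φ : G ≃* G')
    (hA : ∀ a ∈ A', (fun g => a (Φ g)) ∈ A) (hH : ∀ g, g ∈ H ↔ Φ g ∈ H')
    (hH1 : ∀ g, g ∈ H1 ↔ Φ g ∈ H1') : LChart A H H1 N where
  hH := fun g hg => (hH1 g).2 (ch.hH ((hH g).1 hg))
  q0 := fun g => ch.q0 (Φ g)
  q0_mem := hA _ ch.q0_mem
  q0_ne := by
    intro h
    apply ch.q0_ne
    funext g'
    have := congrFun h (Φ.symm g')
    simpa using this
  t := fun g => ch.t (Φ g)
  treg := fun j => by
    obtain ⟨a, ha, b, hb, h⟩ := ch.treg j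
    exact ⟨_, hA a ha, _, hA b hb, fun g hg => h (Φ g) hg⟩
  sep := by
    intro g g' hg hg' htt
    obtain ⟨h, hh, e⟩ := ch.sep (Φ g) (Φ g') hg hg' htt
    refine ⟨Φ.symm h, (hH _).2 (by simpa using hh), ?_⟩
    apply Φ.injective
    rw [e, map_mul]
    simp
  dom := by
    intro P hP
    obtain ⟨g, hg, hP'⟩ := ch.dom P hP
    exact ⟨Φ.symm g, by simpa using hg, by simpa using hP'⟩
  inv := by
    intro h hh g hg j
    show ch.t (Φ (g * h)) j = ch.t (Φ g) j
    rw [map_mul]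
    exact ch.inv _ ((hH h).1 hh) _ hg j
  equiv := by
    intro h hh
    obtain ⟨ρ, hρ⟩ := ch.equiv (Φ h) ((hH1 h).1 hh)
    refine ⟨ρ, fun g hg => ?_⟩
    show ch.q0 (Φ (g * h)) ≠ 0 ∧ ∀ j, ch.t (Φ (g * h)) j = _
    rw [map_mul]
    exact hρ (Φ g) hg

variable {n m : Type} [Fintype n] [DecidableEq n] [Fintype m] [DecidableEq m]

/-- the isomorphism of the isometry groups given by a change of basis -/
def conjIso (J : Matrix n n k) (u : Matrix n m k) (v : Matrix m n k) (huv : u * v = 1)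
    (hvu : v * u = 1) : IsoG J ≃* IsoG (uᵀ * J * u) where
  toFun x := ⟨⟨v * ((x : Matrix.SpecialLinearGroup n k) : Matrix n n k) * u, by
      rw [Matrix.det_conj_of_mul_eq_one hvu huv]; exact x.1.2⟩, by
      have hx : ((x : Matrix.SpecialLinearGroup n k) : Matrix n n k)ᵀ * J *
        ((x : Matrix.SpecialLinearGroup n k) : Matrix n n k) = J := x.2
      show (v * ((x : Matrix.SpecialLinearGroup n k) : Matrix n n k) * u)ᵀ * (uᵀ * J * u) *
        (v * ((x : Matrix.SpecialLinearGroup n k) : Matrix n n k) * u) = uᵀ * J * u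
      have h1 : vᵀ * uᵀ = 1 := by rw [← Matrix.transpose_mul, huv, Matrix.transpose_one]
      calc (v * ((x : Matrix.SpecialLinearGroup n k) : Matrix n n k) * u)ᵀ * (uᵀ * J * u) *
            (v * ((x : Matrix.SpecialLinearGroup n k) : Matrix n n k) * u)
          = uᵀ * (((x : Matrix.SpecialLinearGroup n k) : Matrix n n k)ᵀ * ((vᵀ * uᵀ) * J *
            (u * v)) * ((x : Matrix.SpecialLinearGroup n k) : Matrix n n k)) * u := by
            simp only [Matrix.transpose_mul, Matrix.mul_assoc]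
        _ = uᵀ * J * u := by rw [h1, huv, Matrix.one_mul, Matrix.mul_one, hx]⟩
  invFun y := ⟨⟨u * ((y : Matrix.SpecialLinearGroup m k) : Matrix m m k) * v, by
      rw [Matrix.det_conj_of_mul_eq_one huv hvu]; exact y.1.2⟩, by
      have hy : ((y : Matrix.SpecialLinearGroup m k) : Matrix m m k)ᵀ * (uᵀ * J * u) *
        ((y : Matrix.SpecialLinearGroup m k) : Matrix m m k) = uᵀ * J * u := y.2
      show (u * ((y : Matrix.SpecialLinearGroup m k) : Matrix m m k) * v)ᵀ * J *
        (u * ((y : Matrix.SpecialLinearGroup m k) : Matrix m m k) * v) = J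
      have h1 : vᵀ * uᵀ = 1 := by rw [← Matrix.transpose_mul, huv, Matrix.transpose_one]
      calc (u * ((y : Matrix.SpecialLinearGroup m k) : Matrix m m k) * v)ᵀ * J *
            (u * ((y : Matrix.SpecialLinearGroup m k) : Matrix m m k) * v)
          = vᵀ * (((y : Matrix.SpecialLinearGroup m k) : Matrix m m k)ᵀ * (uᵀ * J * u) *
            ((y : Matrix.SpecialLinearGroup m k) : Matrix m m k)) * v := by
            simp only [Matrix.transpose_mul, Matrix.mul_assoc]
        _ = (vᵀ * uᵀ) * J * (u * v) := by rw [hy]; simp only [Matrix.mul_assoc]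
        _ = J := by rw [h1, huv, Matrix.one_mul, Matrix.mul_one]⟩
  left_inv x := by
    apply Subtype.ext
    apply Subtype.ext
    show u * (v * ((x : Matrix.SpecialLinearGroup n k) : Matrix n n k) * u) * v = _
    calc u * (v * ((x : Matrix.SpecialLinearGroup n k) : Matrix n n k) * u) * v
        = (u * v) * ((x : Matrix.SpecialLinearGroup n k) : Matrix n n k) * (u * v) := by
          simp only [Matrix.mul_assoc]
      _ = _ := by rw [huv, Matrix.one_mul, Matrix.mul_one]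
  right_inv y := by
    apply Subtype.ext
    apply Subtype.ext
    show v * (u * ((y : Matrix.SpecialLinearGroup m k) : Matrix m m k) * v) * u = _
    calc v * (u * ((y : Matrix.SpecialLinearGroup m k) : Matrix m m k) * v) * u
        = (v * u) * ((y : Matrix.SpecialLinearGroup m k) : Matrix m m k) * (v * u) := by
          simp only [Matrix.mul_assoc]
      _ = _ := by rw [hvu, Matrix.one_mul, Matrix.mul_one]
  map_mul' x y := by
    apply Subtype.ext
    apply Subtype.ext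
    show v * (((x : Matrix.SpecialLinearGroup n k) : Matrix n n k) *
      ((y : Matrix.SpecialLinearGroup n k) : Matrix n n k)) * u =
      (v * ((x : Matrix.SpecialLinearGroup n k) : Matrix n n k) * u) *
      (v * ((y : Matrix.SpecialLinearGroup n k) : Matrix n n k) * u)
    calc v * (((x : Matrix.SpecialLinearGroup n k) : Matrix n n k) *
          ((y : Matrix.SpecialLinearGroup n k) : Matrix n n k)) * u
        = v * (((x : Matrix.SpecialLinearGroup n k) : Matrix n n k) * (1 : Matrix n n k) *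
          ((y : Matrix.SpecialLinearGroup n k) : Matrix n n k)) * u := by
          rw [Matrix.mul_one]
      _ = _ := by rw [← huv]; simp only [Matrix.mul_assoc]

lemma conjIso_hom (J : Matrix n n k) (u : Matrix n m k) (v : Matrix m n k) (huv : u * v = 1)
    (hvu : v * u = 1) (x : IsoG J) :
    isoHom _ (conjIso J u v huv hvu x) = v * isoHom J x * u := rfl

lemma conjIso_alg (J : Matrix n n k) (u : Matrix n m k) (v : Matrix m n k) (huv : u * v = 1)
    (hvu : v * u = 1) {a : IsoG (uᵀ * J * u) → k} (ha : a ∈ mAlg (isoHom (uᵀ * J * u))) :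
    (fun x => a (conjIso J u v huv hvu x)) ∈ mAlg (isoHom J) := by
  unfold mAlg at ha
  induction ha using Algebra.adjoin_induction with
  | mem a ha =>
    obtain ⟨i, j, rfl⟩ := ha
    have hc : ∀ {p q : Type} [Fintype p] [DecidableEq p] [Fintype q] [DecidableEq q]
        (M : Matrix p q k) (i : p) (j : q),
        (fun _ : IsoG J => M i j) ∈ mAlg (isoHom J) := fun M i j =>
      Subalgebra.algebraMap_mem (mAlg (isoHom J)) (M i j)
    show (fun x => (v * isoHom J x * u) i j) ∈ mAlg (isoHom J)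
    refine mul_mem_alg _ (fun x => v * isoHom J x) (fun _ => u) (fun i j => ?_)
      (fun i j => hc u i j) i j
    exact mul_mem_alg _ (fun _ => v) (fun x => isoHom J x) (fun i j => hc v i j)
      (fun i j => Algebra.subset_adjoin ⟨i, j, rfl⟩) i j
  | algebraMap r => exact Subalgebra.algebraMap_mem (mAlg (isoHom J)) r
  | add x y _ _ hx hy => exact add_mem hx hy
  | mul x y _ _ hx hy => exact mul_mem hx hy

end Transport

section Skew

variable {k : Type*} [Field k] {e : ℕ} {ε c : k}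

lemma skewK [CharZero k] {A X : Matrix (Fin e) (Fin e) k} (hX : Xᵀ = ε • X)
    (h : A + ε • Aᵀ + c • X = 0) :
    (A + (c * 2⁻¹) • X)ᵀ = -(ε • (A + (c * 2⁻¹) • X)) := by
  ext i j
  have h1 : A j i + ε * A i j + c * X j i = 0 := congrFun (congrFun h j) i
  have h2 : X j i = ε * X i j := congrFun (congrFun hX i) j
  show A j i + (c * 2⁻¹) * X j i = -(ε * (A i j + (c * 2⁻¹) * X i j))
  have h3 : (2 : k) * 2⁻¹ = 1 := mul_inv_cancel₀ two_ne_zero
  linear_combination h1 - c * 2⁻¹ * h2 + (c * X j i) * h3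

lemma skewA [CharZero k] (hε : ε * ε = 1) {K X : Matrix (Fin e) (Fin e) k} (hX : Xᵀ = ε • X)
    (hK : Kᵀ = -(ε • K)) :
    (K - (c * 2⁻¹) • X) + ε • (K - (c * 2⁻¹) • X)ᵀ + c • X = 0 := by
  ext i j
  have h1 : K j i = -(ε * K i j) := congrFun (congrFun hK i) j
  have h2 : X j i = ε * X i j := congrFun (congrFun hX i) j
  show K i j - (c * 2⁻¹) * X i j + ε * (K j i - (c * 2⁻¹) * X j i) + c * X i j = 0
  have h3 : (2 : k) * 2⁻¹ = 1 := mul_inv_cancel₀ two_ne_zero
  rw [h1, h2]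
  linear_combination (-(K i j) - c * 2⁻¹ * X i j) * hε - (c * X i j) * h3

end Skew

section Main

variable {k : Type u} [Field k] {e : ℕ} {w : Type} [Fintype w] [DecidableEq w]

/-- the `D` coordinate -/
noncomputable def mD (y : Matrix (Fin e ⊕ (Fin e ⊕ w)) (Fin e ⊕ (Fin e ⊕ w)) k) :
    Matrix w (Fin e) k := (b32 y - lC y * b12 y) * (b11 y)ᵀ

/-- the `B` coordinate -/
noncomputable def mB (y : Matrix (Fin e ⊕ (Fin e ⊕ w)) (Fin e ⊕ (Fin e ⊕ w)) k) :
    Matrix (Fin e) (Fin e) k := b12 y * (b11 y)ᵀ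

/-- the `K` coordinate -/
noncomputable def mK (Jw : Matrix w w k)
    (y : Matrix (Fin e ⊕ (Fin e ⊕ w)) (Fin e ⊕ (Fin e ⊕ w)) k) :
    Matrix (Fin e) (Fin e) k := lA y + ((1 : k) * 2⁻¹) • ((lC y)ᵀ * Jw * lC y)

/-- the `K'` coordinate -/
noncomputable def mK' (ε : k) (Jw : Matrix w w k)
    (y : Matrix (Fin e ⊕ (Fin e ⊕ w)) (Fin e ⊕ (Fin e ⊕ w)) k) :
    Matrix (Fin e) (Fin e) k := mB y + (ε * 2⁻¹) • ((mD y)ᵀ * Jw * mD y)

/-- the index set of the coordinates -/
abbrev NI (e : ℕ) (d : Bool) (w : Type) : Type :=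
  (w × Fin e) ⊕ (KI e d ⊕ ((w × Fin e) ⊕ (KI e d ⊕ (Fin e × Fin e))))

/-- the coordinates -/
noncomputable def tt (d : Bool) (ε : k) (Jw : Matrix w w k)
    (y : Matrix (Fin e ⊕ (Fin e ⊕ w)) (Fin e ⊕ (Fin e ⊕ w)) k) : NI e d w → k :=
  Sum.elim (fun p => lC y p.1 p.2) (Sum.elim (fun p => mK Jw y p.1.1 p.1.2)
    (Sum.elim (fun p => mD y p.1 p.2) (Sum.elim (fun p => mK' ε Jw y p.1.1 p.1.2)
      (fun p => b11 y p.1 p.2))))

lemma symX {ε : k} {Jw : Matrix w w k} (hJ : Jwᵀ = ε • Jw) (C : Matrix w (Fin e) k) :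
    (Cᵀ * Jw * C)ᵀ = ε • (Cᵀ * Jw * C) := by
  rw [Matrix.transpose_mul, Matrix.transpose_mul, hJ, Matrix.transpose_transpose, Matrix.smul_mul,
    Matrix.mul_smul, Matrix.mul_assoc]

lemma smul_coords {a : k} (ha : a * a = 1)
    (y : Matrix (Fin e ⊕ (Fin e ⊕ w)) (Fin e ⊕ (Fin e ⊕ w)) k) (hy : (b11 y).det ≠ 0) :
    b11 (a • y) = a • b11 y ∧ lC (a • y) = lC y ∧ lA (a • y) = lA y ∧ mB (a • y) = mB y ∧
      mD (a • y) = mD y := by
  have h11 : b11 (a • y) = a • b11 y := rfl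
  have hu : IsUnit (b11 y).det := isUnit_iff_ne_zero.2 hy
  have hinv : (a • b11 y)⁻¹ = a • (b11 y)⁻¹ := by
    apply Matrix.inv_eq_right_inv
    rw [Matrix.smul_mul, Matrix.mul_smul, smul_smul, ha, one_smul, Matrix.mul_nonsing_inv _ hu]
  have hC : lC (a • y) = lC y := by
    show (a • b31 y) * (a • b11 y)⁻¹ = b31 y * (b11 y)⁻¹
    rw [hinv, Matrix.smul_mul, Matrix.mul_smul, smul_smul, ha, one_smul]
  have hA : lA (a • y) = lA y := by
    show (a • b21 y) * (a • b11 y)⁻¹ = b21 y * (b11 y)⁻¹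
    rw [hinv, Matrix.smul_mul, Matrix.mul_smul, smul_smul, ha, one_smul]
  refine ⟨h11, hC, hA, ?_, ?_⟩
  · show (a • b12 y) * (a • b11 y)ᵀ = b12 y * (b11 y)ᵀ
    rw [Matrix.transpose_smul, Matrix.smul_mul, Matrix.mul_smul, smul_smul, ha, one_smul]
  · show (a • b32 y - lC (a • y) * (a • b12 y)) * (a • b11 y)ᵀ = (b32 y - lC y * b12 y) * (b11 y)ᵀ
    rw [hC, Matrix.mul_smul, ← smul_sub, Matrix.transpose_smul, Matrix.smul_mul, Matrix.mul_smul,
      smul_smul, ha, one_smul]

lemma tt_inr {d : Bool} {ε : k} {Jw : Matrix w w k}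
    {y y' : Matrix (Fin e ⊕ (Fin e ⊕ w)) (Fin e ⊕ (Fin e ⊕ w)) k}
    (h : tt d ε Jw y = tt d ε Jw y') :
    lC y = lC y' ∧ (∀ p : KI e d, mK Jw y p.1.1 p.1.2 = mK Jw y' p.1.1 p.1.2) ∧
      mD y = mD y' ∧ (∀ p : KI e d, mK' ε Jw y p.1.1 p.1.2 = mK' ε Jw y' p.1.1 p.1.2) ∧
      b11 y = b11 y' := by
  refine ⟨?_, fun p => congrFun h (Sum.inr (Sum.inl p)), ?_,
    fun p => congrFun h (Sum.inr (Sum.inr (Sum.inr (Sum.inl p)))), ?_⟩
  · ext i j
    exact congrFun h (Sum.inl (i, j))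
  · ext i j
    exact congrFun h (Sum.inr (Sum.inr (Sum.inl (i, j))))
  · ext i j
    exact congrFun h (Sum.inr (Sum.inr (Sum.inr (Sum.inr (i, j)))))

variable [IsAlgClosed k] [CharZero k]

theorem main_chart (h1 : ST_LEVF k) (h2 : ST_LEVC k) (e : ℕ) (w : Type) [Fintype w]
    [DecidableEq w] (ε : k) (d : Bool) (Jw : Matrix w w k) (hd : IsSg ε d) (hJ : IsForm ε Jw)
    (hY : ∀ Y : Matrix w w k, Y.det = 1 → Y = 1)
    (hcen : ∀ x ∈ Subgroup.center (IsoG (LJ (Fin e) ε Jw)), ∃ a : k, a * a = 1 ∧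
      isoHom _ x = a • (1 : Matrix _ _ k)) :
    HasLChart (mAlg (isoHom (LJ (Fin e) ε Jw))) ⊥ (Subgroup.center (IsoG (LJ (Fin e) ε Jw))) := by
  classical
  have : Infinite k := IsAlgClosed.instInfinite
  have hε := hd.sq
  set G := IsoG (LJ (Fin e) ε Jw) with hG
  set ρ := isoHom (LJ (Fin e) ε Jw) with hρ
  have hiso : ∀ x : G, (ρ x)ᵀ * LJ (Fin e) ε Jw * ρ x = LJ (Fin e) ε Jw := fun x => x.2
  have hdet : ∀ x : G, (ρ x).det = 1 := fun x => x.1.2
  set q0 : G → k := fun x => (b11 (ρ x)).det with hq0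
  set A := mAlg ρ with hA
  have hentA : ∀ i j, (fun x : G => ρ x i j) ∈ A := fun i j => Algebra.subset_adjoin ⟨i, j, rfl⟩
  have hq0A : q0 ∈ A := det_mem_alg A (fun x => b11 (ρ x)) (fun i j => hentA _ _)
  have hent : ∀ i j, (fun x : G => ρ x i j) ∈ RegU A q0 := fun i j => le_RegU A q0 (hentA i j)
  have hinv : ∀ i j, (fun x : G => (b11 (ρ x))⁻¹ i j) ∈ RegU A q0 :=
    nonsing_inv_mem_RegU (fun x => b11 (ρ x)) (fun i j => hent _ _) (fun g hg => hg)
  have hcst : ∀ {p q : Type} (M : Matrix p q k) (i : p) (j : q),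
      (fun _ : G => M i j) ∈ RegU A q0 := fun M i j =>
    Subalgebra.algebraMap_mem (RegU A q0) (M i j)
  have hC : ∀ i j, (fun x : G => lC (ρ x) i j) ∈ RegU A q0 :=
    mul_mem_alg _ (fun x => b31 (ρ x)) (fun x => (b11 (ρ x))⁻¹) (fun i j => hent _ _) hinv
  have hAA : ∀ i j, (fun x : G => lA (ρ x) i j) ∈ RegU A q0 :=
    mul_mem_alg _ (fun x => b21 (ρ x)) (fun x => (b11 (ρ x))⁻¹) (fun i j => hent _ _) hinv
  have hB : ∀ i j, (fun x : G => mB (ρ x) i j) ∈ RegU A q0 :=
    mul_mem_alg _ (fun x => b12 (ρ x)) (fun x => (b11 (ρ x))ᵀ) (fun i j => hent _ _)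
      (fun i j => hent _ _)
  have hD : ∀ i j, (fun x : G => mD (ρ x) i j) ∈ RegU A q0 := by
    refine mul_mem_alg _ (fun x => b32 (ρ x) - lC (ρ x) * b12 (ρ x)) (fun x => (b11 (ρ x))ᵀ)
      (fun i j => ?_) (fun i j => hent _ _)
    exact sub_mem (hent _ _) (mul_mem_alg _ (fun x => lC (ρ x)) (fun x => b12 (ρ x)) hC
      (fun i j => hent _ _) i j)
  have hX : ∀ (M : G → Matrix w (Fin e) k), (∀ i j, (fun x => M x i j) ∈ RegU A q0) →
      ∀ i j, (fun x => ((M x)ᵀ * Jw * M x) i j) ∈ RegU A q0 := by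
    intro M hM
    exact mul_mem_alg _ (fun x => (M x)ᵀ * Jw) M
      (mul_mem_alg _ (fun x => (M x)ᵀ) (fun _ => Jw) (fun i j => hM _ _) (hcst Jw)) hM
  have hKK : ∀ i j, (fun x : G => mK Jw (ρ x) i j) ∈ RegU A q0 := fun i j =>
    add_mem (hAA i j) ((RegU A q0).smul_mem (hX _ hC i j) _)
  have hKK' : ∀ i j, (fun x : G => mK' ε Jw (ρ x) i j) ∈ RegU A q0 := fun i j =>
    add_mem (hB i j) ((RegU A q0).smul_mem (hX _ hD i j) _)
  refine ⟨NI e d w, inferInstance, inferInstance, ⟨{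
    hH := bot_le
    q0 := q0
    q0_mem := hq0A
    q0_ne := ?_
    t := fun x => tt d ε Jw (ρ x)
    treg := ?_
    sep := ?_
    dom := ?_
    inv := ?_
    equiv := ?_ }⟩⟩
  · intro h
    have h3 := congrFun h 1
    have h4 : b11 (ρ 1) = 1 := by
      rw [map_one, ← mk3_one]
      rfl
    rw [hq0] at h3
    simp only [h4, Matrix.det_one, Pi.zero_apply] at h3
    exact one_ne_zero h3
  · rintro (p | p | p | p | p)
    · exact hC _ _
    · exact hKK _ _
    · exact hD _ _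
    · exact hKK' _ _
    · exact hent _ _
  · intro x x' hx hx' htt
    refine ⟨1, Subgroup.mem_bot.2 rfl, ?_⟩
    rw [mul_one]
    obtain ⟨e1, e2, e3, e4, e5⟩ := tt_inr htt
    obtain ⟨r1, _, r3, r4, r5⟩ := h1 e w ε Jw hJ (ρ x) (hiso x) hx
    obtain ⟨r1', _, r3', r4', r5'⟩ := h1 e w ε Jw hJ (ρ x') (hiso x') hx'
    have hYx : lY (ρ x) = 1 := hY _ (by rw [← r5, hdet])
    have hYx' : lY (ρ x') = 1 := hY _ (by rw [← r5', hdet])
    have r1s : lA (ρ x) + ε • (lA (ρ x))ᵀ + (1 : k) • ((lC (ρ x))ᵀ * Jw * lC (ρ x)) = 0 := by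
      rw [one_smul]; exact r1
    have r1s' : lA (ρ x') + ε • (lA (ρ x'))ᵀ + (1 : k) • ((lC (ρ x'))ᵀ * Jw * lC (ρ x')) = 0 := by
      rw [one_smul]; exact r1'
    have k1 := skw_of hd (skewK (symX hJ.symm _) r1s)
    have k1' := skw_of hd (skewK (symX hJ.symm _) r1s')
    have kk : mK Jw (ρ x) = mK Jw (ρ x') := by
      rw [← show skw ε (fun p : KI e d => mK Jw (ρ x) p.1.1 p.1.2) = mK Jw (ρ x) from k1,
        ← show skw ε (fun p : KI e d => mK Jw (ρ x') p.1.1 p.1.2) = mK Jw (ρ x') from k1']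
      congr 1
      funext p
      exact e2 p
    have hAeq : lA (ρ x) = lA (ρ x') := by
      have : lA (ρ x) + ((1 : k) * 2⁻¹) • ((lC (ρ x))ᵀ * Jw * lC (ρ x)) =
        lA (ρ x') + ((1 : k) * 2⁻¹) • ((lC (ρ x'))ᵀ * Jw * lC (ρ x')) := kk
      rw [e1] at this
      exact add_right_cancel this
    have k2 : skw ε (fun p : KI e d => mK' ε Jw (ρ x) p.1.1 p.1.2) = mK' ε Jw (ρ x) :=
      skw_of hd (skewK (symX hJ.symm _) r3)
    have k2' : skw ε (fun p : KI e d => mK' ε Jw (ρ x') p.1.1 p.1.2) = mK' ε Jw (ρ x') :=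
      skw_of hd (skewK (symX hJ.symm _) r3')
    have kk' : mK' ε Jw (ρ x) = mK' ε Jw (ρ x') := by
      rw [← k2, ← k2']
      congr 1
      funext p
      exact e4 p
    have hBeq : mB (ρ x) = mB (ρ x') := by
      have : mB (ρ x) + (ε * 2⁻¹) • ((mD (ρ x))ᵀ * Jw * mD (ρ x)) =
        mB (ρ x') + (ε * 2⁻¹) • ((mD (ρ x'))ᵀ * Jw * mD (ρ x')) := kk'
      rw [e3] at this
      exact add_right_cancel this
    have hfin : ρ x' = ρ x := by
      have q1 : ρ x = nLow Jw (lA (ρ x)) (lC (ρ x)) * nUp ε Jw (mB (ρ x)) (mD (ρ x)) *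
        dg (b11 (ρ x)) ((b11 (ρ x))ᵀ)⁻¹ (lY (ρ x)) := r4
      have q2 : ρ x' = nLow Jw (lA (ρ x')) (lC (ρ x')) * nUp ε Jw (mB (ρ x')) (mD (ρ x')) *
        dg (b11 (ρ x')) ((b11 (ρ x'))ᵀ)⁻¹ (lY (ρ x')) := r4'
      rw [q2, ← hAeq, ← hBeq, ← e1, ← e3, ← e5, hYx', ← hYx, ← q1]
    exact Subtype.ext (Subtype.ext hfin)
  · intro P hP
    set ι : Fin e × Fin e → NI e d w := fun p => Sum.inr (Sum.inr (Sum.inr (Sum.inr p))) with hι
    have hι' : Function.Injective ι := fun a b hab => by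
      simpa [hι] using hab
    set Q : MvPolynomial (NI e d w) k :=
      P * rename ι (Matrix.mvPolynomialX (Fin e) (Fin e) k).det with hQ
    have hQ0 : Q ≠ 0 := by
      refine mul_ne_zero hP ?_
      intro h0
      apply Matrix.det_mvPolynomialX_ne_zero (Fin e) k
      apply rename_injective ι hι'
      rw [h0, map_zero]
    obtain ⟨v, hv⟩ : ∃ v, eval v Q ≠ 0 := by
      by_contra hcon
      push Not at hcon
      exact hQ0 (MvPolynomial.funext fun x => by rw [hcon x, map_zero])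
    rw [hQ, map_mul] at hv
    have hv1 := left_ne_zero_of_mul hv
    have hv2 := right_ne_zero_of_mul hv
    set α : Matrix (Fin e) (Fin e) k := Matrix.of fun i j => v (ι (i, j)) with hα
    have hα0 : α.det ≠ 0 := by
      rw [eval_rename] at hv2
      have h5 : eval (v ∘ ι) (Matrix.mvPolynomialX (Fin e) (Fin e) k).det = α.det := by
        rw [RingHom.map_det]
        congr 1
        ext i j
        simp [Matrix.mvPolynomialX, hα]
      rwa [h5] at hv2
    set C : Matrix w (Fin e) k := Matrix.of fun i j => v (Sum.inl (i, j)) with hCdef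
    set D : Matrix w (Fin e) k := Matrix.of fun i j => v (Sum.inr (Sum.inr (Sum.inl (i, j))))
      with hDdef
    set K : Matrix (Fin e) (Fin e) k := skw ε (fun p : KI e d => v (Sum.inr (Sum.inl p))) with hK
    set K' : Matrix (Fin e) (Fin e) k :=
      skw ε (fun p : KI e d => v (Sum.inr (Sum.inr (Sum.inr (Sum.inl p))))) with hK'
    have hKs : Kᵀ = -(ε • K) := skw_transpose hd _
    have hKs' : K'ᵀ = -(ε • K') := skw_transpose hd _
    set a1 := K - ((1 : k) * 2⁻¹) • (Cᵀ * Jw * C) with ha1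
    set b1 := K' - (ε * 2⁻¹) • (Dᵀ * Jw * D) with hb1
    have hr1 : a1 + ε • a1ᵀ + Cᵀ * Jw * C = 0 := by
      have := skewA (c := (1 : k)) hε (symX hJ.symm C) hKs
      rw [one_smul] at this
      exact this
    have hr2 : b1 + ε • b1ᵀ + ε • (Dᵀ * Jw * D) = 0 := skewA (c := ε) hε (symX hJ.symm D) hKs'
    obtain ⟨s1, s2, s3, s4, s5, _, s7, s8⟩ := h2 e w ε Jw hJ a1 b1 α C D 1 hr1 hr2 hα0
      (by rw [Matrix.transpose_one, Matrix.one_mul, Matrix.mul_one]) _ rfl
    set y := nLow Jw a1 C * nUp ε Jw b1 D * dg α (αᵀ)⁻¹ (1 : Matrix w w k) with hy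
    have s7' : mB y = b1 := s7
    have s8' : mD y = D := s8
    refine ⟨⟨⟨y, by rw [s2, Matrix.det_one]⟩, s1⟩, ?_, ?_⟩
    · show (b11 y).det ≠ 0
      rw [s3]; exact hα0
    · show eval (tt d ε Jw y) P ≠ 0
      have htt : tt d ε Jw y = v := by
        funext p
        rcases p with p | p | p | p | p
        · show lC y p.1 p.2 = _
          rw [s5]; rfl
        · show mK Jw y p.1.1 p.1.2 = _
          have : mK Jw y = K := by
            unfold mK
            rw [s4, s5, ha1]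
            exact sub_add_cancel _ _
          rw [this, hK]
          exact skw_free ε _ p
        · show mD y p.1 p.2 = _
          rw [s8']; rfl
        · show mK' ε Jw y p.1.1 p.1.2 = _
          have : mK' ε Jw y = K' := by
            unfold mK'
            rw [s7', s8', hb1]
            exact sub_add_cancel _ _
          rw [this, hK']
          exact skw_free ε _ p
        · show b11 y p.1 p.2 = _
          rw [s3]; rfl
      rw [htt]; exact hv1
  · intro h hh g _ j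
    rw [Subgroup.mem_bot.1 hh, mul_one]
  · intro h hh
    obtain ⟨a, ha, hha⟩ := hcen h hh
    have hmul : ∀ g : G, ρ (g * h) = a • ρ g := by
      intro g
      rw [map_mul, show ρ h = a • 1 from hha, Matrix.mul_smul, Matrix.mul_one]
    have ha0 : a ≠ 0 := fun h0 => by rw [h0, mul_zero] at ha; exact zero_ne_one ha
    refine ⟨Matrix.diagonal (Sum.elim (fun _ => 1) (Sum.elim (fun _ => 1) (Sum.elim (fun _ => 1)
      (Sum.elim (fun _ => 1) (fun _ => a))))), fun g hg => ?_⟩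
    obtain ⟨c1, c2, c3, c4, c5⟩ := smul_coords ha (ρ g) hg
    refine ⟨?_, fun j => ?_⟩
    · show (b11 (ρ (g * h))).det ≠ 0
      rw [hmul, c1, Matrix.det_smul]
      exact mul_ne_zero (pow_ne_zero _ ha0) hg
    · have hsum : ∀ (f : NI e d w → k) (j : NI e d w), ∑ l, Matrix.diagonal f j l *
          tt d ε Jw (ρ g) l = f j * tt d ε Jw (ρ g) j := by
        intro f j
        rw [Finset.sum_eq_single j]
        · rw [Matrix.diagonal_apply_eq]
        · intro l _ hl
          rw [Matrix.diagonal_apply_ne _ (Ne.symm hl), zero_mul]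
        · intro hj; exact absurd (Finset.mem_univ _) hj
      rw [hsum, hmul]
      rcases j with p | p | p | p | p
      · show lC (a • ρ g) p.1 p.2 = 1 * lC (ρ g) p.1 p.2
        rw [c2, one_mul]
      · show mK Jw (a • ρ g) p.1.1 p.1.2 = 1 * mK Jw (ρ g) p.1.1 p.1.2
        unfold mK
        rw [c2, c3]
        exact (one_mul _).symm
      · show mD (a • ρ g) p.1 p.2 = 1 * mD (ρ g) p.1 p.2
        rw [c5, one_mul]
      · show mK' ε Jw (a • ρ g) p.1.1 p.1.2 = 1 * mK' ε Jw (ρ g) p.1.1 p.1.2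
        unfold mK'
        rw [c4, c5, one_mul]
      · show b11 (a • ρ g) p.1 p.2 = a * b11 (ρ g) p.1 p.2
        rw [c1]; rfl

theorem LJ_isForm {ε : k} {Jw : Matrix w w k} (hJ : IsForm ε Jw) (e : ℕ) :
    IsForm ε (LJ (Fin e) ε Jw) := by
  have hε : ε * ε = 1 := by
    rcases hJ.eps with h | h <;> rw [h] <;> ring
  refine ⟨hJ.eps, ?_, ?_⟩
  · rw [LJ, mk3_transpose, mk3_smul]
    rw [Matrix.transpose_smul, Matrix.transpose_one, hJ.symm, smul_smul, hε, one_smul]
    simp
  · have h1 : LJ (Fin e) ε Jw * mk3 0 (ε • (1 : Matrix (Fin e) (Fin e) k)) 0 1 0 0 0 0 Jw⁻¹ = 1 := by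
      rw [LJ, mk3_mul, ← mk3_one]
      have hu : IsUnit Jw.det := isUnit_iff_ne_zero.2 hJ.det_ne
      simp only [Matrix.zero_mul, Matrix.mul_zero, Matrix.one_mul, Matrix.mul_one, zero_add,
        add_zero, Matrix.smul_mul, Matrix.mul_smul, smul_smul, smul_zero, hε, one_smul,
        Matrix.mul_nonsing_inv _ hu]
    intro h0
    have h2 := congrArg Matrix.det h1
    rw [Matrix.det_mul, h0, zero_mul, Matrix.det_one] at h2
    exact zero_ne_one h2

theorem center_scalar (h4 : ST_CEN k) {n : Type} [Fintype n] [DecidableEq n] {ε : k}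
    {J : Matrix n n k} (hJ : IsForm ε J) (hn : ε = 1 → 3 ≤ Fintype.card n) (x : IsoG J)
    (hx : x ∈ Subgroup.center (IsoG J)) :
    ∃ a : k, a * a = 1 ∧ isoHom J x = a • (1 : Matrix n n k) := by
  obtain ⟨a, ha⟩ := h4 n ε J hJ hn (isoHom J x) (fun y => by
    rw [← map_mul, ← map_mul, Subgroup.mem_center_iff.1 hx y])
  rcases isEmpty_or_nonempty n with hn0 | ⟨⟨i⟩⟩
  · exact ⟨1, by ring, Subsingleton.elim _ _⟩
  · refine ⟨a, ?_, ha⟩
    have h5 : (isoHom J x)ᵀ * J * isoHom J x = J := x.2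
    rw [ha, Matrix.transpose_smul, Matrix.transpose_one, Matrix.smul_mul, Matrix.one_mul,
      Matrix.mul_smul, Matrix.mul_one, smul_smul] at h5
    by_contra hne
    have h6 : (a * a - 1) • J = 0 := by rw [sub_smul, one_smul, h5, sub_self]
    have h7 : J = 0 := by
      rcases smul_eq_zero.1 h6 with h | h
      · exact absurd (sub_eq_zero.1 h) hne
      · exact h
    have : Nonempty n := ⟨i⟩
    exact hJ.det_ne (by rw [h7]; exact Matrix.det_zero)

theorem st_CC (h1 : ST_LEVF k) (h2 : ST_LEVC k) (h3 : ST_EQV k) (h4 : ST_CEN k) : ST_CC k := by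
  intro n _ _ ε J hJ hn
  -- parity
  have hpar : ε = -1 → Even (Fintype.card n) := by
    intro h
    have h5 := congrArg Matrix.det hJ.symm
    rw [Matrix.det_transpose, Matrix.det_smul, h] at h5
    have h6 : ((-1 : k)) ^ Fintype.card n = 1 := by
      have : ((-1 : k) ^ Fintype.card n - 1) * J.det = 0 := by linear_combination -h5
      rcases mul_eq_zero.1 this with h | h
      · exact sub_eq_zero.1 h
      · exact absurd h hJ.det_ne
    by_contra hodd
    rw [Nat.not_even_iff_odd] at hodd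
    rw [hodd.neg_one_pow] at h6
    have h7 : (2 : k) = 0 := by linear_combination -h6
    exact two_ne_zero h7
  set e := Fintype.card n / 2 with he
  set w := Fintype.card n % 2 with hw
  have hcard : Fintype.card n = 2 * e + w := (Nat.div_add_mod _ 2).symm
  have hw2 : w < 2 := Nat.mod_lt _ (by norm_num)
  have hJw : IsForm ε (1 : Matrix (Fin w) (Fin w) k) := by
    refine ⟨hJ.eps, ?_, by rw [Matrix.det_one]; exact one_ne_zero⟩
    rcases hJ.eps with h | h
    · rw [h, one_smul, Matrix.transpose_one]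
    · have hw0 : w = 0 := by
        have := Nat.even_iff.1 (hpar h)
        rw [hw, this]
      have : IsEmpty (Fin w) := by rw [hw0]; infer_instance
      exact Subsingleton.elim _ _
  have hY : ∀ Y : Matrix (Fin w) (Fin w) k, Y.det = 1 → Y = 1 := by
    intro Y hYd
    interval_cases hw' : w
    · exact Subsingleton.elim _ _
    · ext i j
      fin_cases i
      fin_cases j
      rw [Matrix.det_fin_one] at hYd
      simpa using hYd
  obtain ⟨d, hd⟩ : ∃ d, IsSg ε d := by
    rcases hJ.eps with h | h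
    · exact ⟨false, Or.inr ⟨rfl, h⟩⟩
    · exact ⟨true, Or.inl ⟨rfl, h⟩⟩
  have hLJ := LJ_isForm hJw e
  have hc2 : Fintype.card n = Fintype.card (Fin e ⊕ (Fin e ⊕ Fin w)) := by
    simp only [Fintype.card_sum, Fintype.card_fin]
    omega
  obtain ⟨u, hu⟩ := h3 n (Fin e ⊕ (Fin e ⊕ Fin w)) ε J (LJ (Fin e) ε 1) hJ hLJ hc2
  set v : Matrix (Fin e ⊕ (Fin e ⊕ Fin w)) n k := (LJ (Fin e) ε (1 : Matrix (Fin w) (Fin w) k))⁻¹ * uᵀ * J
    with hv
  have hvu : v * u = 1 := by
    rw [hv, Matrix.mul_assoc, Matrix.mul_assoc, ← Matrix.mul_assoc uᵀ, hu,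
      Matrix.nonsing_inv_mul _ (isUnit_iff_ne_zero.2 hLJ.det_ne)]
  have huv : u * v = 1 := (Matrix.mul_eq_one_comm_of_equiv (Fintype.equivOfCardEq hc2)).2 hvu
  have hcen : ∀ x ∈ Subgroup.center (IsoG (LJ (Fin e) ε (1 : Matrix (Fin w) (Fin w) k))),
      ∃ a : k, a * a = 1 ∧ isoHom _ x = a • (1 : Matrix _ _ k) :=
    fun x hx => center_scalar h4 hLJ (fun h => by rw [← hc2]; exact hn h) x hx
  obtain ⟨N, hN, hD, ⟨ch⟩⟩ := main_chart h1 h2 e (Fin w) ε d 1 hd hJw hY hcen
  rw [← hu] at ch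
  refine ⟨N, hN, hD, ⟨transportChart ch (conjIso J u v huv hvu)
    (fun a ha => conjIso_alg J u v huv hvu ha) (fun g => ?_) (fun g => ?_)⟩⟩
  · rw [Subgroup.mem_bot, Subgroup.mem_bot]
    exact (map_eq_one_iff _ (MulEquiv.injective _)).symm
  · set Φ := conjIso J u v huv hvu
    rw [Subgroup.mem_center_iff, Subgroup.mem_center_iff]
    constructor
    · intro h y
      have := congrArg Φ (h (Φ.symm y))
      rw [map_mul, map_mul, MulEquiv.apply_symm_apply] at this
      exact this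
    · intro h x
      apply Φ.injective
      rw [map_mul, map_mul]
      exact h (Φ x)

end Main

end Pool.Agent.Helper79.CG
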